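import Mathlib
import Pool.Agent.Helper47.P.Defs
import Pool.Agent.Helper28.MX.Jac

/-!
# Theorem M+, block PP: the Jacobian determinant
-/

set_option autoImplicit false

namespace Pool.Agent.Helper28.P

open MvPolynomial Pool.Agent.Helper47.M Pool.Agent.Helper47.P

variable {k l : ℕ} {N : Fin k → ℕ} {d : Fin l → Fin k → ℕ}

/-- For general coefficients the Jacobian determinants are not zero divisors. -/
theorem jac_nzd (hd : ∀ i r, 0 < d i r) (r : Fin k) (u : Fin l ↪ Fin (N r)) :
    ∃ Δ : MvPolynomial (Tx N d) ℚ, Δ ≠ 0 ∧ ∀ (K : Type) [Field K] [CharZero K]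
      (c : Tx N d → K), aeval c Δ ≠ 0 →
        ∀ (m : ℕ) (G : MvPolynomial (Vr N) K), Jd c r u ^ m * G ∈ idl c → G ∈ idl c :=
  Pool.Agent.Helper28.MX.jac_nzd hd r u u.injective

end Pool.Agent.Helper28.P
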