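import Mathlib
import Pool.Agent.Helper47.P.Defs
import Pool.Agent.Helper97.M.Spread

/-!
# Theorem M+, block PS: slices
-/

set_option autoImplicit false

namespace Pool.Agent.Helper28.P

open MvPolynomial Pool.Agent.Helper47.M Pool.Agent.Helper47.P

variable {k l : ℕ} {n N : Fin k → ℕ} {d : Fin l → Fin k → ℕ}

section ring

variable {S S' : Type*} [CommRing S] [CommRing S']

theorem tv_pull {e : Fin k → ℕ} (L : ∀ r, Fin (n r + 1) → Fin (N r + 1) → S) (a : Tn N e → S)
    (y : Pt n S) : ∑ m' : Tn n e, (∑ m : Tn N e, a m * ∏ r, ∏ t, L r (m' r t) (m r t)) *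
      ∏ r, ∏ t, y r (m' r t) = ∑ m : Tn N e, a m * ∏ r, ∏ t, ∑ j, y r j * L r j (m r t) := by
  classical
  simp only [Finset.sum_mul]
  rw [Finset.sum_comm]
  refine Finset.sum_congr rfl fun m _ => ?_
  have h1 : ∀ r, ∏ s, ∑ j, y r j * L r j (m r s) =
      ∑ p : Fin (e r) → Fin (n r + 1), ∏ s, y r (p s) * L r (p s) (m r s) := by
    intro r
    rw [Finset.prod_univ_sum, Fintype.piFinset_univ]
  simp only [h1]
  rw [Finset.prod_univ_sum, Fintype.piFinset_univ, Finset.mul_sum]
  refine Finset.sum_congr rfl fun m' _ => ?_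
  simp only [Finset.prod_mul_distrib]
  ring

theorem fm_slc (g : Sl n N) (ξ : Q g → S) (c : Tx N d → S) (y : Pt n S) (i : Fin l) :
    Fm (slc g ξ c) y i = Fm c (emb g ξ y) i :=
  tv_pull (Lg g ξ) (fun m => c ⟨i, m⟩) y

theorem Lg_map (f : S →+* S') (g : Sl n N) (ξ : Q g → S) (r : Fin k) (j : Fin (n r + 1))
    (i : Fin (N r + 1)) : f (Lg g ξ r j i) = Lg g (fun q => f (ξ q)) r j i := by
  classical
  unfold Lg
  refine Fin.cases ?_ (fun b => ?_) j
  · rw [Fin.cons_zero, Fin.cons_zero]
    refine Fin.cases ?_ (fun a => ?_) i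
    · rw [Fin.cons_zero, Fin.cons_zero, map_one]
    · rw [Fin.cons_succ, Fin.cons_succ]
      split_ifs
      · exact map_zero f
      · rfl
  · rw [Fin.cons_succ, Fin.cons_succ, Pi.single_apply, Pi.single_apply]
    split_ifs
    · exact map_one f
    · exact map_zero f

theorem slc_map (f : S →+* S') (g : Sl n N) (ξ : Q g → S) (c : Tx N d → S) (e : Tx n d) :
    f (slc g ξ c e) = slc g (fun q => f (ξ q)) (fun e => f (c e)) e := by
  unfold slc tv
  simp only [map_sum, map_mul, map_prod, Lg_map]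

theorem emb_rst (g : Sl n N) (x : Pt N S) (h1 : ∀ r, x r 0 = 1) :
    emb g (fun q => x q.1.1 q.1.2.succ) (rst g x) = x := by
  classical
  funext r i
  unfold emb
  rw [Fin.sum_univ_succ]
  have e0 : rst g x r 0 = 1 := h1 r
  have e1 : ∀ b : Fin (n r), rst g x r b.succ = x r (g r b).succ := fun b => rfl
  have e2 : ∀ b : Fin (n r), Lg g (fun q : Q g => x q.1.1 q.1.2.succ) r b.succ =
      Pi.single (g r b).succ 1 := fun b => rfl
  simp only [e0, e1, e2, one_mul]
  refine Fin.cases ?_ (fun a => ?_) i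
  · have e3 : Lg g (fun q : Q g => x q.1.1 q.1.2.succ) r 0 0 = 1 := rfl
    rw [e3, h1 r, Finset.sum_eq_zero, add_zero]
    intro b _
    rw [Pi.single_eq_of_ne (Fin.succ_ne_zero _).symm, mul_zero]
  · have e3 : Lg g (fun q : Q g => x q.1.1 q.1.2.succ) r 0 a.succ =
        if h : a ∉ Set.range (g r) then x r a.succ else 0 := rfl
    rw [e3]
    by_cases h : a ∈ Set.range (g r)
    · obtain ⟨b, hb⟩ := h
      rw [dif_neg (by rw [not_not]; exact ⟨b, hb⟩), zero_add, Finset.sum_eq_single b]
      · rw [hb, Pi.single_eq_same, mul_one]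
      · intro b' _ hb'
        rw [Pi.single_eq_of_ne, mul_zero]
        intro h2
        apply hb'
        rw [Fin.succ_inj, ← hb] at h2
        exact ((g r).injective h2).symm
      · intro h2
        exact absurd (Finset.mem_univ b) h2
    · rw [dif_pos h, Finset.sum_eq_zero, add_zero]
      intro b _
      rw [Pi.single_eq_of_ne, mul_zero]
      intro h2
      rw [Fin.succ_inj] at h2
      exact h ⟨b, h2.symm⟩

end ring

/-- The places of the kept coordinates. -/
def em (g : Sl n N) (r : Fin k) : Fin (n r + 1) → Fin (N r + 1) :=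
  Fin.cons 0 fun b => (g r b).succ

theorem em_inj (g : Sl n N) (r : Fin k) : Function.Injective (em g r) := by
  intro a b h
  unfold em at h
  induction a using Fin.cases with
  | zero =>
    induction b using Fin.cases with
    | zero => rfl
    | succ b =>
      rw [Fin.cons_zero, Fin.cons_succ] at h
      exact absurd h (Fin.succ_ne_zero _).symm
  | succ a =>
    induction b using Fin.cases with
    | zero =>
      rw [Fin.cons_zero, Fin.cons_succ] at h
      exact absurd h (Fin.succ_ne_zero _)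
    | succ b =>
      rw [Fin.cons_succ, Fin.cons_succ, Fin.succ_inj] at h
      rw [(g r).injective h]

/-- The slice through the origin. -/
theorem Lg_null (g : Sl n N) {S : Type*} [CommRing S] (r : Fin k) (j : Fin (n r + 1))
    (i : Fin (N r + 1)) :
    Lg g (fun _ => (0 : S)) r j i = if i = em g r j then 1 else 0 := by
  classical
  unfold Lg em
  refine Fin.cases ?_ (fun b => ?_) j
  · rw [Fin.cons_zero, Fin.cons_zero]
    refine Fin.cases ?_ (fun a => ?_) i
    · rw [Fin.cons_zero, if_pos rfl]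
    · rw [Fin.cons_succ, if_neg (Fin.succ_ne_zero _), dite_eq_right_iff.2]
      intro _
      rfl
  · rw [Fin.cons_succ, Fin.cons_succ, Pi.single_apply]

theorem slc_null (g : Sl n N) {S : Type*} [CommRing S] (c : Tx N d → S) (e : Tx n d) :
    slc g (fun _ => (0 : S)) c e = c ⟨e.1, fun r s => em g r (e.2 r s)⟩ := by
  classical
  unfold slc tv
  simp only [Lg_null]
  rw [Finset.sum_eq_single (fun r s => em g r (e.2 r s))]
  · simp
  · intro m _ hm
    have h1 : ∃ r s, m r s ≠ em g r (e.2 r s) := by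
      by_contra h
      push Not at h
      exact hm (funext fun r => funext fun s => h r s)
    obtain ⟨r, s, h2⟩ := h1
    have h3 : ∏ r, ∏ s, (if m r s = em g r (e.2 r s) then (1 : S) else 0) = 0 := by
      refine Finset.prod_eq_zero (Finset.mem_univ r) ?_
      exact Finset.prod_eq_zero (Finset.mem_univ s) (if_neg h2)
    rw [h3, mul_zero]
  · intro h
    exact absurd (Finset.mem_univ _) h

/-- The generic slice of the generic forms. -/
theorem slc_ne_zero (g : Sl n N) (Δ : MvPolynomial (Tx n d) ℚ)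
    (h : Δ ≠ 0) : aeval (slc g (fun v => X (Sum.inr (Sum.inl v)))
      (fun m => (X (Sum.inl m) : MvPolynomial (Tx N d ⊕ (Q g ⊕ Empty)) ℚ))) Δ ≠ 0 := by
  classical
  intro h0
  apply h
  let G : Tx n d → Tx N d := fun e => ⟨e.1, fun r s => em g r (e.2 r s)⟩
  have hG : Function.Injective G := by
    rintro ⟨i, m⟩ ⟨i', m'⟩ h1
    obtain ⟨h2, h3⟩ := Sigma.mk.inj_iff.1 h1
    change i = i' at h2
    subst h2
    have h4 := eq_of_heq h3
    congr 1
    funext r s
    exact em_inj g r (congrFun (congrFun h4 r) s)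
  let u : Tx N d → MvPolynomial (Tx n d) ℚ := fun m => if h : m ∈ Set.range G then
    X h.choose else 0
  have hu : ∀ e, u (G e) = X e := by
    intro e
    have h1 : G e ∈ Set.range G := ⟨e, rfl⟩
    have h2 : u (G e) = X h1.choose := dif_pos h1
    rw [h2]
    congr 1
    exact hG h1.choose_spec
  let φ : MvPolynomial (Tx N d ⊕ (Q g ⊕ Empty)) ℚ →ₐ[ℚ] MvPolynomial (Tx n d) ℚ :=
    aeval (Sum.elim u fun _ => 0)
  have h1 : φ (aeval (slc g (fun v => X (Sum.inr (Sum.inl v)))
      (fun m => (X (Sum.inl m) : MvPolynomial (Tx N d ⊕ (Q g ⊕ Empty)) ℚ))) Δ) = Δ := by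
    rw [← AlgHom.comp_apply]
    have h2 : φ.comp (aeval (slc g (fun v => X (Sum.inr (Sum.inl v)))
      (fun m => (X (Sum.inl m) : MvPolynomial (Tx N d ⊕ (Q g ⊕ Empty)) ℚ)))) =
        AlgHom.id ℚ _ := by
      apply MvPolynomial.algHom_ext
      intro e
      rw [AlgHom.comp_apply, aeval_X, AlgHom.id_apply]
      have h3 := slc_map φ.toRingHom g
        (fun v => X (Sum.inr (Sum.inl v)))
        (fun m => (X (Sum.inl m) : MvPolynomial (Tx N d ⊕ (Q g ⊕ Empty)) ℚ)) e
      refine h3.trans ?_
      have h4 : (fun v : Q g => φ.toRingHom (X (Sum.inr (Sum.inl v)))) = fun _ => 0 := by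
        funext v
        show φ (X _) = 0
        simp [φ]
      have h5 : (fun m : Tx N d => φ.toRingHom (X (Sum.inl m))) = u := by
        funext m
        show φ (X _) = u m
        simp [φ]
      rw [h4, h5, slc_null]
      exact hu e
    rw [h2, AlgHom.id_apply]
  rw [← h1, h0, map_zero]

/-- General coefficients have general slices. -/
theorem exists_slc (g : Sl n N) (Δ : MvPolynomial (Tx n d) ℚ) (hΔ : Δ ≠ 0) :
    ∃ Δ' : MvPolynomial (Tx N d) ℚ, Δ' ≠ 0 ∧ ∀ (K : Type) [Field K] [CharZero K]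
      (c : Tx N d → K), aeval c Δ' ≠ 0 → ∀ (K' : Type) [Field K'] [Algebra K K'] [CharZero K']
      (ξ : Q g → K'), AlgebraicIndependent K ξ →
        aeval (slc g ξ fun e => algebraMap K K' (c e)) Δ ≠ 0 := by
  have hkey : ∀ (R : Type) [CommRing R] [Algebra ℚ R] (c : Tx N d → R) (t : Q g → R)
      (w : Empty → R), aeval (Sum.elim c (Sum.elim t w))
      (aeval (slc g (fun v => X (Sum.inr (Sum.inl v)))
        (fun m => (X (Sum.inl m) : MvPolynomial (Tx N d ⊕ (Q g ⊕ Empty)) ℚ))) Δ) =
      aeval (slc g t c) Δ := by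
    intro R _ _ c t w
    rw [← AlgHom.comp_apply]
    have h2 : (aeval (Sum.elim c (Sum.elim t w))).comp
        (aeval (slc g (fun v => X (Sum.inr (Sum.inl v)))
        (fun m => (X (Sum.inl m) : MvPolynomial (Tx N d ⊕ (Q g ⊕ Empty)) ℚ)))) =
        aeval (slc g t c) := by
      apply MvPolynomial.algHom_ext
      intro e
      rw [AlgHom.comp_apply, aeval_X, aeval_X]
      have h3 := slc_map (aeval (Sum.elim c (Sum.elim t w)) :
          MvPolynomial (Tx N d ⊕ (Q g ⊕ Empty)) ℚ →ₐ[ℚ] R).toRingHom g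
        (fun v => X (Sum.inr (Sum.inl v)))
        (fun m => (X (Sum.inl m) : MvPolynomial (Tx N d ⊕ (Q g ⊕ Empty)) ℚ)) e
      refine h3.trans ?_
      congr 1
      · funext v
        show aeval _ (X _) = t v
        simp
      · funext m
        show aeval _ (X _) = c m
        simp
    rw [h2]
  obtain ⟨Δ', hΔ', H⟩ := Pool.Agent.Helper97.M.spread (ι := Tx N d) (κ := Q g) (ν := Empty)
    {aeval (slc g (fun v => X (Sum.inr (Sum.inl v)))
      (fun m => (X (Sum.inl m) : MvPolynomial (Tx N d ⊕ (Q g ⊕ Empty)) ℚ))) Δ} (by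
      intro Ω _ _ c w v h1 h2
      have h3 := h1 _ rfl
      rw [hkey] at h3
      have h4 := slc_ne_zero g Δ hΔ
      apply h4
      have h5 : Function.Injective (aeval (Sum.elim c (Sum.elim w v)) :
          MvPolynomial (Tx N d ⊕ (Q g ⊕ Empty)) ℚ →ₐ[ℚ] Ω) := by
        have h6 := h2.comp (Sum.map id (Equiv.sumEmpty (Q g) Empty))
          (Sum.map_injective.2 ⟨Function.injective_id, (Equiv.sumEmpty _ _).injective⟩)
        have h7 : Sum.elim c w ∘ Sum.map id (Equiv.sumEmpty (Q g) Empty) =
            Sum.elim c (Sum.elim w v) := by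
          funext q
          rcases q with q | q | q
          · rfl
          · rfl
          · exact q.elim
        rw [h7] at h6
        exact h6
      apply h5
      rw [hkey, h3, map_zero])
  refine ⟨Δ', hΔ', fun K _ _ c hc Ω _ _ _ t ht h1 => ?_⟩
  refine H K c hc Ω t (fun q => q.elim) ht ?_
  intro g' hg'
  rw [Set.mem_singleton_iff] at hg'
  subst hg'
  rw [hkey]
  exact h1

end Pool.Agent.Helper28.P
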