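import Mathlib
import Pool.Agent.Helper28.P.Slc
import Pool.Agent.Helper97.M.Gen

/-!
# Theorem M+, block PS: the fixed coordinates, the generic point of the slice
-/

set_option autoImplicit false

namespace Pool.Agent.Helper28.P

open MvPolynomial Pool.Agent.Helper47.M Pool.Agent.Helper47.P

variable {k l : ℕ} {n N : Fin k → ℕ} {d : Fin l → Fin k → ℕ}

open Classical in
/-- The fixed coordinates of the factor `r`. -/
noncomputable def fixF (g : Sl n N) (r : Fin k) : Finset (Vr N) :=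
  (Finset.univ \ Finset.univ.map (g r)).map ⟨fun a => (⟨r, a⟩ : Vr N), fun a b h => by
    obtain ⟨-, h2⟩ := Sigma.mk.inj_iff.1 h
    exact eq_of_heq h2⟩

theorem mem_fixF (g : Sl n N) (r : Fin k) (q : Vr N) :
    q ∈ fixF g r ↔ q.1 = r ∧ q.2 ∉ Set.range (g q.1) := by
  classical
  unfold fixF
  constructor
  · intro h
    obtain ⟨a, ha, rfl⟩ := Finset.mem_map.1 h
    refine ⟨rfl, ?_⟩
    rintro ⟨b, hb⟩
    rw [Finset.mem_sdiff] at ha
    exact ha.2 (Finset.mem_map.2 ⟨b, Finset.mem_univ b, hb⟩)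
  · rintro ⟨h1, h2⟩
    obtain ⟨r', a⟩ := q
    change r' = r at h1
    subst h1
    refine Finset.mem_map.2 ⟨a, ?_, rfl⟩
    rw [Finset.mem_sdiff]
    refine ⟨Finset.mem_univ a, fun h3 => h2 ?_⟩
    obtain ⟨b, _, hb⟩ := Finset.mem_map.1 h3
    exact ⟨b, hb⟩

theorem card_fixF (g : Sl n N) (r : Fin k) : (fixF g r).card + n r = N r := by
  classical
  unfold fixF
  rw [Finset.card_map, Finset.card_sdiff_of_subset (Finset.subset_univ _), Finset.card_map,
    Finset.card_univ, Finset.card_univ, Fintype.card_fin, Fintype.card_fin]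
  have h : n r ≤ N r := by
    have := Fintype.card_le_of_embedding (g r)
    rwa [Fintype.card_fin, Fintype.card_fin] at this
  omega

theorem card_factor (r : Fin k) :
    ((Finset.univ : Finset (Fin (N r))).map ⟨fun a => (⟨r, a⟩ : Vr N), fun a b h => by
      obtain ⟨-, h2⟩ := Sigma.mk.inj_iff.1 h
      exact eq_of_heq h2⟩).card = N r := by
  rw [Finset.card_map, Finset.card_univ, Fintype.card_fin]

/-- A small set of coordinates of the factor `r` is contained in one with `N r - l` elements. -/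
theorem exists_super (r : Fin k) (F : Finset (Vr N)) (hF : ∀ q ∈ F, q.1 = r)
    (hc : F.card + l ≤ N r) : ∃ A : Finset (Vr N), F ⊆ A ∧ (∀ q ∈ A, q.1 = r) ∧
      A.card + l = N r := by
  classical
  obtain ⟨A, h1, h2, h3⟩ := Finset.exists_subsuperset_card_eq (s := F)
    (t := (Finset.univ : Finset (Fin (N r))).map ⟨fun a => (⟨r, a⟩ : Vr N), fun a b h => by
      obtain ⟨-, h2⟩ := Sigma.mk.inj_iff.1 h
      exact eq_of_heq h2⟩) (n := N r - l) (by
      intro q hq
      obtain ⟨r', a⟩ := q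
      have h1 := hF _ hq
      change r' = r at h1
      subst h1
      exact Finset.mem_map.2 ⟨a, Finset.mem_univ a, rfl⟩) (by omega) (by
      rw [card_factor]
      omega)
  refine ⟨A, h1, ?_, by omega⟩
  intro q hq
  obtain ⟨a, _, rfl⟩ := Finset.mem_map.1 (h2 hq)
  rfl

variable {K E : Type} [Field K] [Field E] [Algebra K E]

/-- The coordinate `q`. -/
def co (x : Pt N E) (q : Vr N) : E := x q.1 q.2.succ

/-- Independence of the coordinates of the other factors and a small set of coordinates of the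
factor `r`. -/
theorem ind_of (c : Tx N d → K) (x : Pt N E) (hx : FullX K c x) (r : Fin k) (F : Finset (Vr N))
    (hF : ∀ q ∈ F, q.1 = r) (hc : F.card + l ≤ N r) :
    AlgebraicIndependent K (fun q : {q : Vr N // q.1 ≠ r ∨ q ∈ F} => co x q) := by
  obtain ⟨A, h1, h2, h3⟩ := exists_super r F hF hc
  exact (hx.ind r A h2 h3).comp
    (fun q : {q : Vr N // q.1 ≠ r ∨ q ∈ F} => ⟨q.1, q.2.imp id fun h => h1 h⟩) (by
      intro q q' h
      exact Subtype.ext (Subtype.mk.inj h))

theorem ind_slice (hk : 0 < k) (hn : ∀ r, n r = l ∨ n r = l + 1) (g : Sl n N) (c : Tx N d → K)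
    (x : Pt N E) (hx : FullX K c x) : AlgebraicIndependent K (xi K g x) := by
  rw [← AlgHom.algebraicIndependent_iff (Kx K g x).val (Kx K g x).val.injective]
  have h0 := card_fixF g ⟨0, hk⟩
  have h1 := hn ⟨0, hk⟩
  have h2 := ind_of c x hx ⟨0, hk⟩ (fixF g ⟨0, hk⟩) (fun q hq => ((mem_fixF _ _ _).1 hq).1)
    (by omega)
  have h3 : ∀ q : Q g, q.1.1 ≠ ⟨0, hk⟩ ∨ q.1 ∈ fixF g ⟨0, hk⟩ := by
    intro q
    by_cases h : q.1.1 = ⟨0, hk⟩
    · exact Or.inr ((mem_fixF _ _ _).2 ⟨h, q.2⟩)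
    · exact Or.inl h
  exact h2.comp (fun q : Q g => ⟨q.1, h3 q⟩) (by
    intro q q' h
    exact Subtype.ext (Subtype.mk.inj h))

/-- The field generated by the coordinates in `T`. -/
def Kt (K : Type) {E : Type} [Field K] [Field E] [Algebra K E] (x : Pt N E) (T : Set (Vr N)) :
    IntermediateField K E := IntermediateField.adjoin K (co x '' T)

theorem kt_mono (x : Pt N E) {T T' : Set (Vr N)} (h : T ⊆ T') : Kt K x T ≤ Kt K x T' :=
  IntermediateField.adjoin.mono _ _ _ (Set.image_mono h)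

theorem kx_eq (g : Sl n N) (x : Pt N E) :
    Kx K g x = Kt K x {q | q.2 ∉ Set.range (g q.1)} := by
  unfold Kx Kt
  congr 1
  ext y
  constructor
  · rintro ⟨q, rfl⟩
    exact ⟨q.1, q.2, rfl⟩
  · rintro ⟨q, hq, rfl⟩
    exact ⟨⟨q, hq⟩, rfl⟩

/-- The field in terms of an independent family. -/
theorem kt_sub (x : Pt N E) (p : Vr N → Prop) (T : Set (Vr N)) (hT : ∀ q ∈ T, p q) :
    Kt K x T = IntermediateField.adjoin K
      ((fun q : {q : Vr N // p q} => co x q) '' {q | q.1 ∈ T}) := by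
  unfold Kt
  congr 1
  ext y
  constructor
  · rintro ⟨q, hq, rfl⟩
    exact ⟨⟨q, hT q hq⟩, hq, rfl⟩
  · rintro ⟨q, hq, rfl⟩
    exact ⟨q.1, hq, rfl⟩

/-- Intersections. -/
theorem kt_inf (x : Pt N E) (p : Vr N → Prop)
    (hp : AlgebraicIndependent K (fun q : {q : Vr N // p q} => co x q)) (T T' : Set (Vr N))
    (hT : ∀ q ∈ T, p q) (hT' : ∀ q ∈ T', p q) (y : E) (h1 : y ∈ Kt K x T) (h2 : y ∈ Kt K x T') :
    y ∈ Kt K x (T ∩ T') := by
  rw [kt_sub x p T hT] at h1
  rw [kt_sub x p T' hT'] at h2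
  rw [kt_sub x p (T ∩ T') fun q hq => hT q hq.1]
  exact Pool.Agent.Helper97.M.adjoin_inf _ hp _ _ y h1 h2

/-- Independence over a field generated by coordinates. -/
theorem ind_over (x : Pt N E) (p : Vr N → Prop)
    (hp : AlgebraicIndependent K (fun q : {q : Vr N // p q} => co x q)) (T : Set (Vr N))
    (hT : ∀ q ∈ T, p q) {ι : Type} (f : ι → Vr N) (hf : Function.Injective f)
    (hfp : ∀ i, p (f i)) (hfT : ∀ i, f i ∉ T) :
    AlgebraicIndependent (Kt K x T) fun i => co x (f i) := by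
  rw [kt_sub x p T hT]
  let C : Set {q : Vr N // p q} := {q | q.1 ∉ T}
  have hdis : Disjoint ({q : {q : Vr N // p q} | q.1 ∈ T}) C :=
    Set.disjoint_left.2 fun q h1 h2 => h2 h1
  have h1 : AlgebraicIndependent (IntermediateField.adjoin K
      ((fun q : {q : Vr N // p q} => co x q) '' {q | q.1 ∈ T})) (fun i : C => co x i.1) := by
    rw [IntermediateField.algebraicIndependent_adjoin_iff]
    exact hp.adjoin_of_disjoint hdis
  exact h1.comp (fun i => ⟨⟨f i, hfp i⟩, hfT i⟩) (by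
    intro i j h
    apply hf
    have h2 := Subtype.mk.inj h
    exact Subtype.mk.inj h2)

end Pool.Agent.Helper28.P
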