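import Mathlib
import Pool.Agent.Helper28.P.Ind

/-!
# Theorem M+, block PS: the generic point of the slice
-/

set_option autoImplicit false

namespace Pool.Agent.Helper28.P

open MvPolynomial Pool.Agent.Helper47.M Pool.Agent.Helper47.P

variable {k l : ℕ} {n N : Fin k → ℕ} {d : Fin l → Fin k → ℕ}
variable {K E : Type} [Field K] [Field E] [Algebra K E]

/-- The field `Bf` of the slice as a subfield over `K`. -/
theorem bf_slice (g : Sl n N) (x : Pt N E) (h1 : ∀ j, x j 0 = 1) (J : Set (Fin k)) :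
    (Bf (Kx K g x) (rst g x) J).restrictScalars K =
      Kt K x {q | q.2 ∉ Set.range (g q.1) ∨ q.1 ∉ J} := by
  apply le_antisymm
  · unfold Bf
    have h2 : (IntermediateField.adjoin (Kx K g x)
        {y | ∃ j, j ∉ J ∧ ∃ e, y = rst g x j e}).restrictScalars K =
        IntermediateField.adjoin K ((Set.range fun q : Q g => x q.1.1 q.1.2.succ) ∪
          {y | ∃ j, j ∉ J ∧ ∃ e, y = rst g x j e}) :=
      IntermediateField.adjoin_adjoin_left K _ _
    rw [h2, IntermediateField.adjoin_le_iff]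
    rintro y (⟨q, rfl⟩ | ⟨j, hj, e, rfl⟩)
    · exact IntermediateField.subset_adjoin K _ ⟨q.1, Or.inl q.2, rfl⟩
    · refine Fin.cases ?_ (fun b => ?_) e
      · have h3 : rst g x j 0 = 1 := h1 j
        rw [h3]
        exact one_mem _
      · exact IntermediateField.subset_adjoin K _ ⟨⟨j, g j b⟩, Or.inr hj, rfl⟩
  · unfold Kt
    rw [IntermediateField.adjoin_le_iff]
    rintro _ ⟨q, hq, rfl⟩
    show co x q ∈ Bf (Kx K g x) (rst g x) J
    by_cases h2 : q.2 ∈ Set.range (g q.1)
    · obtain ⟨b, hb⟩ := h2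
      have h3 : q.1 ∉ J := by
        rcases hq with h4 | h4
        · exact absurd ⟨b, hb⟩ h4
        · exact h4
      refine IntermediateField.subset_adjoin _ _ ⟨q.1, h3, b.succ, ?_⟩
      show x q.1 q.2.succ = x q.1 (g q.1 b).succ
      rw [hb]
    · exact (Bf (Kx K g x) (rst g x) J).algebraMap_mem
        (⟨x q.1 q.2.succ, IntermediateField.subset_adjoin K _ ⟨⟨q, h2⟩, rfl⟩⟩ : Kx K g x)

theorem full_slice (hn : ∀ r, n r = l ∨ n r = l + 1) (g : Sl n N) (c : Tx N d → K) (x : Pt N E)
    (hx : FullX K c x) : FullPt (Kx K g x) (cx K g x c) (rst g x) where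
  eq i := by
    have h1 : (fun e => algebraMap (Kx K g x) E (cx K g x c e)) =
        slc g (fun q : Q g => x q.1.1 q.1.2.succ) fun e => algebraMap K E (c e) := by
      funext e
      exact slc_map (algebraMap (Kx K g x) E) g (xi K g x) _ e
    rw [h1, fm_slc, emb_rst g x hx.one]
    exact hx.eq i
  one j := hx.one j
  ind r := by
    have hcard := card_fixF g r
    have hnr := hn r
    have hind := ind_of c x hx r (fixF g r) (fun q hq => ((mem_fixF _ _ _).1 hq).1) (by omega)
    have h2 := ind_over x (fun q => q.1 ≠ r ∨ q ∈ fixF g r) hind {q | q.2 ∉ Set.range (g q.1)} (by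
      intro q hq
      by_cases h3 : q.1 = r
      · exact Or.inr ((mem_fixF _ _ _).2 ⟨h3, hq⟩)
      · exact Or.inl h3) (fun q : {q : Vr n // q.1 ≠ r} => (⟨q.1.1, g q.1.1 q.1.2⟩ : Vr N)) (by
      rintro ⟨⟨s, a⟩, h⟩ ⟨⟨s', a'⟩, h'⟩ h3
      obtain ⟨h4, h5⟩ := Sigma.mk.inj_iff.1 h3
      change s = s' at h4
      subst h4
      have h6 : a = a' := (g s).injective (eq_of_heq h5)
      subst h6
      rfl) (fun q => Or.inl q.2) (fun q h3 => h3 ⟨q.1.2, rfl⟩)
    rw [kx_eq]
    exact h2
  tr r hr := by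
    have h0 : 0 < n r := by omega
    have hcard := card_fixF g r
    let q0 : Vr N := ⟨r, g r ⟨0, h0⟩⟩
    have hq0 : q0 ∉ fixF g r := fun h => ((mem_fixF _ _ _).1 h).2 ⟨_, rfl⟩
    have hind := ind_of c x hx r (Finset.cons q0 (fixF g r) hq0) (by
      intro q hq
      rcases Finset.mem_cons.1 hq with rfl | hq
      · rfl
      · exact ((mem_fixF _ _ _).1 hq).1) (by
      rw [Finset.card_cons]
      omega)
    have h2 := ind_over x (fun q => q.1 ≠ r ∨ q ∈ Finset.cons q0 (fixF g r) hq0) hind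
      {q | q.2 ∉ Set.range (g q.1) ∨ q.1 ∉ ({r} : Set (Fin k))} (by
        intro q hq
        by_cases h3 : q.1 = r
        · refine Or.inr (Finset.mem_cons.2 (Or.inr ((mem_fixF _ _ _).2 ⟨h3, ?_⟩)))
          rcases hq with hq | hq
          · exact hq
          · exact absurd h3 hq
        · exact Or.inl h3) (fun _ : Unit => q0) (fun _ _ _ => rfl)
      (fun _ => Or.inr (Finset.mem_cons_self _ _)) (by
        rintro _ (h3 | h3)
        · exact h3 ⟨_, rfl⟩
        · exact h3 rfl)
    rw [← bf_slice g x hx.one {r}] at h2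
    refine ⟨Fin.succ ⟨0, h0⟩, ?_⟩
    exact algebraicIndependent_unique_type_iff.1 h2
  top := by
    rw [eq_top_iff]
    intro y _
    have h2 : (Bf (Kx K g x) (rst g x) ∅).restrictScalars K = ⊤ := by
      rw [bf_slice g x hx.one ∅, eq_top_iff, ← hx.top]
      unfold Bf Kt
      rw [IntermediateField.adjoin_le_iff]
      rintro _ ⟨j, _, e, rfl⟩
      refine Fin.cases ?_ (fun a => ?_) e
      · rw [hx.one j]
        exact one_mem _
      · exact IntermediateField.subset_adjoin K _ ⟨⟨j, a⟩, Or.inr (Set.notMem_empty _), rfl⟩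
    have h3 : y ∈ (Bf (Kx K g x) (rst g x) ∅).restrictScalars K := by
      rw [h2]
      exact IntermediateField.mem_top
    exact h3

end Pool.Agent.Helper28.P
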