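import Mathlib
import Pool.Agent.Helper28.P.Ind

/-!
# Theorem M+, block PS: the intersection of the fields of all slices
-/

set_option autoImplicit false

namespace Pool.Agent.Helper28.P

open MvPolynomial Pool.Agent.Helper47.M Pool.Agent.Helper47.P

variable {k l : ℕ} {n N : Fin k → ℕ} {d : Fin l → Fin k → ℕ}

/-- A slice with the kept coordinate `a` in the factor `r`, and the same in the other factors. -/
theorem exists_keep (g : Sl n N) (r : Fin k) (hr : 0 < n r) (a : Fin (N r)) :
    ∃ g' : Sl n N, a ∈ Set.range (g' r) ∧ ∀ s, s ≠ r → g' s = g s := by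
  classical
  refine ⟨Function.update g r ((g r).trans (Equiv.swap (g r ⟨0, hr⟩) a).toEmbedding),
    ⟨⟨0, hr⟩, ?_⟩, fun s hs => Function.update_of_ne hs _ _⟩
  rw [Function.update_self, Function.Embedding.trans_apply, Equiv.toEmbedding_apply,
    Equiv.swap_apply_left]

variable {K E : Type} [Field K] [Field E] [Algebra K E]

theorem inter_slices (hk : 2 ≤ k) (hl : 0 < l) (hn : ∀ r, n r = l ∨ n r = l + 1)
    (hN : ∀ r, n r ≤ N r) (c : Tx N d → K) (x : Pt N E) (hx : FullX K c x) (e : E)
    (h : ∀ g : Sl n N, e ∈ Kx K g x) : e ∈ (⊥ : IntermediateField K E) := by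
  classical
  have key : ∀ (R : Finset (Fin k)) (g : Sl n N),
      e ∈ Kt K x {q | q.1 ∉ R ∧ q.2 ∉ Set.range (g q.1)} := by
    intro R
    induction R using Finset.induction_on with
    | empty =>
      intro g
      have h1 := h g
      rw [kx_eq] at h1
      refine kt_mono x ?_ h1
      intro q hq
      exact ⟨Finset.notMem_empty _, hq⟩
    | insert r R _ ih =>
      intro g
      have hnr : 0 < n r := by rcases hn r with h1 | h1 <;> omega
      obtain ⟨s, hs⟩ : ∃ s : Fin k, s ≠ r := by
        by_cases h0 : r = ⟨0, by omega⟩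
        · refine ⟨⟨1, by omega⟩, ?_⟩
          rw [h0]
          intro h1
          have := Fin.mk.inj h1
          omega
        · exact ⟨⟨0, by omega⟩, fun h1 => h0 h1.symm⟩
      have hcard := card_fixF g s
      have hns := hn s
      have hind := ind_of c x hx s (fixF g s) (fun q hq => ((mem_fixF _ _ _).1 hq).1) (by omega)
      have step : ∀ B : Finset (Fin (N r)), e ∈ Kt K x {q | q.1 ∉ R ∧
          q.2 ∉ Set.range (g q.1) ∧ ∀ b ∈ B, q ≠ ⟨r, b⟩} := by
        intro B
        induction B using Finset.induction_on with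
        | empty =>
          refine kt_mono x ?_ (ih g)
          rintro q ⟨h1, h2⟩
          exact ⟨h1, h2, fun b hb => absurd hb (Finset.notMem_empty _)⟩
        | insert a B _ ihB =>
          obtain ⟨g', hg1, hg2⟩ := exists_keep g r hnr a
          have h1 := kt_inf x (fun q => q.1 ≠ s ∨ q ∈ fixF g s) hind
            {q | q.1 ∉ R ∧ q.2 ∉ Set.range (g' q.1)}
            {q | q.1 ∉ R ∧ q.2 ∉ Set.range (g q.1) ∧ ∀ b ∈ B, q ≠ ⟨r, b⟩} (by
              rintro q ⟨_, h2⟩
              by_cases h3 : q.1 = s
              · refine Or.inr ((mem_fixF _ _ _).2 ⟨h3, ?_⟩)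
                rwa [← hg2 q.1 (by rw [h3]; exact hs)]
              · exact Or.inl h3) (by
              rintro q ⟨_, h2, _⟩
              by_cases h3 : q.1 = s
              · exact Or.inr ((mem_fixF _ _ _).2 ⟨h3, h2⟩)
              · exact Or.inl h3) e (ih g') ihB
          refine kt_mono x ?_ h1
          rintro q ⟨⟨_, h2⟩, h3, h4, h5⟩
          refine ⟨h3, h4, fun b hb => ?_⟩
          rcases Finset.mem_insert.1 hb with rfl | hb
          · rintro rfl
            exact h2 hg1
          · exact h5 b hb
      refine kt_mono x ?_ (step Finset.univ)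
      rintro q ⟨h1, h2, h3⟩
      refine ⟨fun h4 => ?_, h2⟩
      rcases Finset.mem_insert.1 h4 with h4 | h4
      · obtain ⟨r', a⟩ := q
        change r' = r at h4
        subst h4
        exact h3 a (Finset.mem_univ a) rfl
      · exact h1 h4
  have h1 := key Finset.univ fun r => Fin.castLEEmb (hN r)
  have h2 : {q : Vr N | q.1 ∉ (Finset.univ : Finset (Fin k)) ∧
      q.2 ∉ Set.range (Fin.castLEEmb (hN q.1))} = ∅ := by
    ext q
    simp
  rw [h2] at h1
  unfold Kt at h1
  rwa [Set.image_empty, IntermediateField.adjoin_empty] at h1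

end Pool.Agent.Helper28.P
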